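import Mathlib
import Pool.Agent.Q84.L2Fourier
import Pool.Agent.Q84.RudinShapiro
import Pool.Agent.Q84.Tent

/-!
# The Fourier transform is not continuous from `(M_T^∞(ℝ^d), ‖·‖_K)` to the vague topology
-/

set_option autoImplicit false

namespace Pool.Agent.Results.MP_148afe_an.NotContinuous

open MeasureTheory Filter Complex
open scoped ENNReal Topology

/-- Euclidean space `ℝ^d`. -/
abbrev E (d : ℕ) : Type := EuclideanSpace ℝ (Fin d)

/-- A complex Radon measure on `ℝ^d`, written as `density · base` with `base` a locally finite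
positive measure and `density` a complex function locally integrable for `base`. (By polar
decomposition every complex Radon measure is of this form, and each such expression defines one;
its total variation measure is `|density| · base`.) -/
structure RadonMeasure (d : ℕ) where
  /-- the positive measure -/
  base : Measure (E d)
  locallyFinite : IsLocallyFiniteMeasure base
  /-- the complex density -/
  density : E d → ℂ
  locallyIntegrable : LocallyIntegrable density base

/-- The total variation measure `|μ|`. -/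
noncomputable def RadonMeasure.totalVariation {d : ℕ} (μ : RadonMeasure d) : Measure (E d) :=
  μ.base.withDensity fun x => ‖μ.density x‖ₑ

/-- The integral `μ(f)`. -/
noncomputable def RadonMeasure.integral {d : ℕ} (μ : RadonMeasure d) (f : E d → ℂ) : ℂ :=
  ∫ x, f x * μ.density x ∂μ.base

/-- `‖μ‖_K = sup_x |μ|(x + K)`. -/
noncomputable def RadonMeasure.normK {d : ℕ} (K : Set (E d)) (μ : RadonMeasure d) : ℝ≥0∞ :=
  ⨆ x : E d, μ.totalVariation ((fun y => x + y) '' K)

/-- `C_c(ℝ^d)`. -/
def IsCc {d : ℕ} (f : E d → ℂ) : Prop := Continuous f ∧ HasCompactSupport f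

/-- The convolution `(f * f~)(x) = ∫ f(t) f~(x - t) dt` with `f~(x) = conj (f(-x))`. -/
noncomputable def selfConv {d : ℕ} (f : E d → ℂ) (x : E d) : ℂ :=
  ∫ t, f t * star (f (-(x - t)))

/-- `fˇ(y) = ∫ f(x) exp(2πi x·y) dx`. -/
noncomputable def check {d : ℕ} (f : E d → ℂ) (y : E d) : ℂ :=
  ∫ x, f x * cexp (2 * Real.pi * I * (inner ℝ x y : ℝ))

/-- `μhat` is the Fourier transform of `μ`: for every `f ∈ C_c(ℝ^d)`, `fˇ ∈ L²(|μhat|)` and
`μ(f * f~) = μhat(|fˇ|²)`. -/
def IsFourierTransform {d : ℕ} (μ μhat : RadonMeasure d) : Prop :=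
  ∀ f : E d → ℂ, IsCc f → MemLp (check f) 2 μhat.totalVariation ∧
    μ.integral (selfConv f) = μhat.integral (fun y => ((‖check f y‖ ^ 2 : ℝ) : ℂ))

/-! ### The construction -/

section construction

variable {d : ℕ} (hd : 1 ≤ d)

/-- the first coordinate index -/
def i0 (hd : 1 ≤ d) : Fin d := ⟨0, hd⟩

/-- the atoms -/
noncomputable def pt (j : ℕ) : E d := EuclideanSpace.single (i0 hd) (j : ℝ)

/-- the weights -/
noncomputable def a (k : ℕ) : ℝ := (4 / 5) ^ k

theorem a_pos (k : ℕ) : 0 < a k := by unfold a; positivity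

/-- the coefficient sequence -/
noncomputable def co (k j : ℕ) : ℂ := (a k : ℂ) * (Q84.RS.P k).coeff j

theorem co_norm (k j : ℕ) : ‖co k j‖ ≤ a k := by
  unfold co
  rw [norm_mul, Complex.norm_real, Real.norm_eq_abs, abs_of_pos (a_pos k)]
  exact mul_le_of_le_one_right (a_pos k).le (Q84.RS.P_coeff_norm k j)

theorem pt_coord (j : ℕ) : ⌊(pt hd j) (i0 hd)⌋₊ = j := by
  unfold pt
  rw [PiLp.single_apply, if_pos rfl, Nat.floor_natCast]

theorem dens_meas (k : ℕ) : Measurable fun y : E d => co k ⌊y (i0 hd)⌋₊ := by
  have h1 : Measurable fun y : E d => ⌊y (i0 hd)⌋₊ := by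
    apply Measurable.nat_floor
    fun_prop
  exact (measurable_from_nat (f := co k)).comp h1

/-- the discrete measures -/
noncomputable def mu (k : ℕ) : RadonMeasure d where
  base := ∑ j ∈ Finset.range (2 ^ k), Measure.dirac (pt hd j)
  locallyFinite := by infer_instance
  density := fun y => co k ⌊y (i0 hd)⌋₊
  locallyIntegrable := by
    apply Integrable.locallyIntegrable
    rw [integrable_finsetSum_measure]
    intro j _
    exact integrable_dirac enorm_lt_top

theorem mu_integral (k : ℕ) (f : E d → ℂ) :
    (mu hd k).integral f = ∑ j ∈ Finset.range (2 ^ k), f (pt hd j) * co k j := by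
  unfold RadonMeasure.integral mu
  simp only
  rw [integral_finsetSum_measure]
  · refine Finset.sum_congr rfl fun j _ => ?_
    rw [integral_dirac, pt_coord hd]
  · intro j _
    exact integrable_dirac enorm_lt_top

/-- the Fourier transform density -/
noncomputable def M (k : ℕ) (y : E d) : ℂ :=
  ∑ j ∈ Finset.range (2 ^ k), co k j * Q84.Tent.ch j (y (i0 hd))

theorem M_cont (k : ℕ) : Continuous (M hd k) := by
  unfold M
  have := fun m => Q84.Tent.ch_cont m
  fun_prop

theorem ch_norm (m : ℤ) (t : ℝ) : ‖Q84.Tent.ch m t‖ = 1 := by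
  unfold Q84.Tent.ch
  rw [Complex.norm_exp_ofReal_mul_I]

theorem ch_pow (j : ℕ) (t : ℝ) : Q84.Tent.ch j t = Q84.Tent.ch 1 t ^ j := by
  unfold Q84.Tent.ch
  rw [← Complex.exp_nat_mul]
  congr 1
  push_cast
  ring

theorem M_eq (k : ℕ) (y : E d) :
    M hd k y = (a k : ℂ) * (Q84.RS.P k).eval (Q84.Tent.ch 1 (y (i0 hd))) := by
  unfold M
  rw [Q84.RS.P_eval, Finset.mul_sum]
  refine Finset.sum_congr rfl fun j _ => ?_
  rw [ch_pow, co]
  ring

theorem M_bound (k : ℕ) (y : E d) : ‖M hd k y‖ ^ 2 ≤ a k ^ 2 * 2 ^ (k + 1) := by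
  rw [M_eq, norm_mul, mul_pow, Complex.norm_real, Real.norm_eq_abs, abs_of_pos (a_pos k)]
  have := Q84.RS.P_sq_le k (Q84.Tent.ch 1 (y (i0 hd))) (ch_norm _ _)
  have h2 := sq_nonneg (a k)
  nlinarith

/-- the transforms -/
noncomputable def muhat (k : ℕ) : RadonMeasure d where
  base := volume
  locallyFinite := inferInstance
  density := M hd k
  locallyIntegrable := (M_cont hd k).locallyIntegrable

theorem check_eq (f : E d → ℂ) (y : E d) : check f y = FourierTransform.fourier f (-y) := by
  unfold check
  rw [Real.fourier_eq' f (-y)]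
  refine integral_congr_ae (Eventually.of_forall fun x => ?_)
  simp only [smul_eq_mul]
  rw [mul_comm]
  congr 2
  rw [inner_neg_right]
  push_cast
  ring

theorem cc_int {f : E d → ℂ} (hf : IsCc f) : Integrable f :=
  hf.1.integrable_of_hasCompactSupport hf.2

theorem cc_L2 {f : E d → ℂ} (hf : IsCc f) : MemLp f 2 volume :=
  hf.1.memLp_of_hasCompactSupport hf.2

theorem check_L2 {f : E d → ℂ} (hf : IsCc f) : MemLp (check f) 2 volume := by
  have h1 := Q84.L2Fourier.memLp_fourier f (cc_int hf) (cc_L2 hf)
  have h2 : check f = fun y => FourierTransform.fourier f (-y) := funext (check_eq f)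
  rw [h2]
  exact h1.comp_measurePreserving (Measure.measurePreserving_neg volume)

theorem check_cont {f : E d → ℂ} (hf : IsCc f) : Continuous (check f) := by
  have h2 : check f = fun y => FourierTransform.fourier f (-y) := funext (check_eq f)
  rw [h2]
  have : Continuous (FourierTransform.fourier f) :=
    VectorFourier.fourierIntegral_continuous Real.continuous_fourierChar
      (innerSL ℝ).continuous₂ (cc_int hf)
  exact this.comp continuous_neg

theorem check_translate (f : E d → ℂ) (t y : E d) :
    check (fun x => f (x - t)) y = cexp (2 * Real.pi * I * (inner ℝ t y : ℝ)) * check f y := by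
  unfold check
  have h := integral_sub_right_eq_self (μ := (volume : Measure (E d)))
    (fun x => f x * cexp (2 * Real.pi * I * (inner ℝ (x + t) y : ℝ))) t
  simp only [sub_add_cancel] at h
  rw [h, ← integral_const_mul]
  refine integral_congr_ae (Eventually.of_forall fun x => ?_)
  simp only
  rw [inner_add_left]
  have : cexp (2 * Real.pi * I * ((inner ℝ x y + inner ℝ t y : ℝ) : ℂ)) =
      cexp (2 * Real.pi * I * (inner ℝ t y : ℝ)) * cexp (2 * Real.pi * I * (inner ℝ x y : ℝ)) := by
    rw [← Complex.exp_add]; congr 1; push_cast; ring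
  rw [this]
  ring

theorem key_identity {f : E d → ℂ} (hf : IsCc f) (j : ℕ) :
    ∫ y : E d, ((‖check f y‖ ^ 2 : ℝ) : ℂ) * Q84.Tent.ch j (y (i0 hd)) =
      selfConv f (pt hd j) := by
  have hg : IsCc (fun x => f (x - pt hd j)) :=
    ⟨hf.1.comp (continuous_id.sub continuous_const), by
      have := hf.2.comp_homeomorph (Homeomorph.subRight (pt hd j))
      exact this⟩
  have h1 := Q84.L2Fourier.parseval f (fun x => f (x - pt hd j)) (cc_int hf) (cc_L2 hf)
    (cc_int hg) (cc_L2 hg)
  have h2 : selfConv f (pt hd j) = ∫ x, f x * star (f (x - pt hd j)) := by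
    unfold selfConv
    refine integral_congr_ae (Eventually.of_forall fun x => ?_)
    simp only [neg_sub]
  have h5 : ∫ y : E d, FourierTransform.fourier f y *
      star (FourierTransform.fourier (fun x => f (x - pt hd j)) y) =
      ∫ y : E d, FourierTransform.fourier f (-y) *
      star (FourierTransform.fourier (fun x => f (x - pt hd j)) (-y)) :=
    (integral_neg_eq_self (fun y : E d => FourierTransform.fourier f y *
      star (FourierTransform.fourier (fun x => f (x - pt hd j)) y)) volume).symm
  rw [h2, ← h1, h5]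
  refine integral_congr_ae (Eventually.of_forall fun y => ?_)
  simp only
  rw [← check_eq, ← check_eq, check_translate]
  have h3 : star (cexp (2 * Real.pi * I * (inner ℝ (pt hd j) y : ℝ)) * check f y) =
      Q84.Tent.ch j (y (i0 hd)) * star (check f y) := by
    rw [star_mul']
    congr 1
    rw [Complex.star_def, ← Complex.exp_conj]
    unfold Q84.Tent.ch pt
    congr 1
    rw [EuclideanSpace.inner_single_left]
    simp [Complex.conj_ofNat]
    ring
  rw [h3]
  have h4 : ((‖check f y‖ ^ 2 : ℝ) : ℂ) = check f y * star (check f y) := by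
    rw [Complex.star_def, Complex.mul_conj, Complex.normSq_eq_norm_sq]
  rw [h4]
  ring

theorem isFT (k : ℕ) : IsFourierTransform (mu hd k) (muhat hd k) := by
  intro f hf
  have hL2 := check_L2 hf
  constructor
  · unfold RadonMeasure.totalVariation muhat
    simp only
    set C : ℝ := Real.sqrt (a k ^ 2 * 2 ^ (k + 1)) with hC
    have hle : (volume : Measure (E d)).withDensity (fun x => ‖M hd k x‖ₑ) ≤
        ENNReal.ofReal C • volume := by
      rw [← withDensity_const]
      apply withDensity_mono
      refine Eventually.of_forall fun x => ?_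
      simp only
      rw [← ofReal_norm]
      apply ENNReal.ofReal_le_ofReal
      apply Real.le_sqrt_of_sq_le
      exact M_bound hd k x
    exact hL2.of_measure_le_smul ENNReal.ofReal_ne_top hle
  · rw [mu_integral]
    unfold RadonMeasure.integral muhat
    simp only
    have e : ∀ y : E d, ((‖check f y‖ ^ 2 : ℝ) : ℂ) * M hd k y =
        ∑ j ∈ Finset.range (2 ^ k), (((‖check f y‖ ^ 2 : ℝ) : ℂ) *
          Q84.Tent.ch j (y (i0 hd))) * co k j := by
      intro y
      unfold M
      rw [Finset.mul_sum]
      refine Finset.sum_congr rfl fun j _ => ?_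
      ring
    simp_rw [e]
    rw [integral_finsetSum]
    · refine Finset.sum_congr rfl fun j _ => ?_
      rw [integral_mul_const, key_identity hd hf]
    · intro j _
      apply Integrable.mul_const
      have h1 : Integrable (fun y : E d => ((‖check f y‖ ^ 2 : ℝ) : ℂ)) :=
        (hL2.integrable_norm_pow (by norm_num)).ofReal
      refine h1.mul_bdd (c := 1) ?_ (Eventually.of_forall fun y => (ch_norm _ _).le)
      have := Q84.Tent.ch_cont j
      exact Continuous.aestronglyMeasurable (by fun_prop)

/-- The norms of `μ_k` are at most a constant times the weights. -/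
theorem normK_le (K : Set (E d)) (hK : IsCompact K) : ∃ C : ℕ, ∀ k,
    (mu hd k).normK K ≤ ENNReal.ofReal (a k) * C := by
  classical
  obtain ⟨R, hR⟩ := hK.isBounded.exists_norm_le
  refine ⟨⌊2 * R⌋₊ + 1, fun k => ?_⟩
  unfold RadonMeasure.normK
  refine iSup_le fun x => ?_
  unfold RadonMeasure.totalVariation
  have hKc : IsClosed ((fun y => x + y) '' K) :=
    (hK.image (continuous_const.add continuous_id)).isClosed
  rw [withDensity_apply _ hKc.measurableSet]
  have h1 : ∫⁻ y in (fun y => x + y) '' K, ‖(mu hd k).density y‖ₑ ∂(mu hd k).base ≤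
      ∫⁻ y in (fun y => x + y) '' K, ENNReal.ofReal (a k) ∂(mu hd k).base := by
    apply lintegral_mono
    intro y
    simp only
    rw [← ofReal_norm]
    exact ENNReal.ofReal_le_ofReal (co_norm k _)
  refine h1.trans ?_
  rw [lintegral_const, Measure.restrict_apply_univ]
  gcongr
  unfold mu
  simp only [Measure.coe_finsetSum, Finset.sum_apply]
  have h2 : ∀ j ∈ Finset.range (2 ^ k), (Measure.dirac (pt hd j)) ((fun y => x + y) '' K) =
      ((if pt hd j ∈ (fun y => x + y) '' K then 1 else 0 : ℕ) : ℝ≥0∞) := by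
    intro j _
    rw [Measure.dirac_apply' _ hKc.measurableSet]
    by_cases h : pt hd j ∈ (fun y => x + y) '' K
    · rw [Set.indicator_of_mem h, if_pos h]; simp
    · rw [Set.indicator_of_notMem h, if_neg h]; simp
  rw [Finset.sum_congr rfl h2, ← Nat.cast_sum, Finset.sum_boole]
  norm_cast
  set S := (Finset.range (2 ^ k)).filter fun j => pt hd j ∈ (fun y => x + y) '' K with hS
  by_cases hne : S.Nonempty
  · have hsub : S ⊆ Finset.Icc (S.min' hne) (S.min' hne + ⌊2 * R⌋₊) := by
      intro j hj
      have h3 := S.min'_le j hj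
      rw [Finset.mem_Icc]
      refine ⟨h3, ?_⟩
      have h4 := (Finset.mem_filter.1 (S.min'_mem hne)).2
      have h5 := (Finset.mem_filter.1 hj).2
      obtain ⟨u, hu, hu'⟩ := h4
      obtain ⟨v, hv, hv'⟩ := h5
      have h6 : pt hd j - pt hd (S.min' hne) = v - u := by
        rw [← hu', ← hv']; simp
      have h7 : pt hd j - pt hd (S.min' hne) =
          EuclideanSpace.single (i0 hd) ((j : ℝ) - (S.min' hne : ℕ)) := by
        unfold pt
        ext i
        simp
        split_ifs <;> simp
      have h8 : ‖v - u‖ ≤ 2 * R := by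
        refine (norm_sub_le _ _).trans ?_
        linarith [hR u hu, hR v hv]
      rw [← h6, h7, PiLp.norm_single, Real.norm_eq_abs] at h8
      have h9 : (j : ℝ) - (S.min' hne : ℕ) ≤ 2 * R := (le_abs_self _).trans h8
      have h10 : ((j - S.min' hne : ℕ) : ℝ) ≤ 2 * R := by
        rw [Nat.cast_sub h3]; exact h9
      have := Nat.le_floor h10
      omega
    refine (Finset.card_le_card hsub).trans ?_
    rw [Nat.card_Icc]
    omega
  · rw [Finset.not_nonempty_iff_eq_empty.1 hne]
    simp

open BoundedContinuousFunction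

theorem MT_int (k : ℕ) : Integrable (fun y : E d => M hd k y * (Q84.Tent.T y : ℂ)) := by
  apply Continuous.integrable_of_hasCompactSupport
  · have := M_cont hd k
    have := Q84.Tent.T_cont (d := d)
    fun_prop
  · have h : HasCompactSupport (fun y : E d => (Q84.Tent.T y : ℂ)) :=
      Q84.Tent.T_supp.comp_left (g := Complex.ofReal) Complex.ofReal_zero
    exact h.mul_left

/-- the functionals `u ↦ muhat_k(T u)` on bounded continuous functions -/
noncomputable def La (k : ℕ) : (E d →ᵇ ℂ) →L[ℂ] ℂ :=
  LinearMap.mkContinuous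
    { toFun := fun u => ∫ y, M hd k y * (Q84.Tent.T y : ℂ) * u y
      map_add' := by
        intro u v
        rw [← integral_add]
        · refine integral_congr_ae (Eventually.of_forall fun y => ?_)
          simp only [BoundedContinuousFunction.coe_add, Pi.add_apply]
          ring
        · exact (MT_int hd k).mul_bdd u.continuous.aestronglyMeasurable
            (Eventually.of_forall fun y => u.norm_coe_le_norm y)
        · exact (MT_int hd k).mul_bdd v.continuous.aestronglyMeasurable
            (Eventually.of_forall fun y => v.norm_coe_le_norm y)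
      map_smul' := by
        intro c u
        rw [RingHom.id_apply, smul_eq_mul, ← integral_const_mul]
        refine integral_congr_ae (Eventually.of_forall fun y => ?_)
        simp only [BoundedContinuousFunction.coe_smul, smul_eq_mul]
        ring }
    (∫ y, ‖M hd k y * (Q84.Tent.T y : ℂ)‖) (by
      intro u
      rw [← integral_mul_const]
      refine (norm_integral_le_integral_norm _).trans ?_
      refine integral_mono_of_nonneg (Eventually.of_forall fun y => norm_nonneg _)
        ((MT_int hd k).norm.mul_const _) (Eventually.of_forall fun y => ?_)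
      simp only
      rw [norm_mul]
      exact mul_le_mul_of_nonneg_left (u.norm_coe_le_norm y) (norm_nonneg _))

theorem La_apply (k : ℕ) (u : E d →ᵇ ℂ) :
    La hd k u = ∫ y, M hd k y * (Q84.Tent.T y : ℂ) * u y := rfl

/-- the test functions -/
noncomputable def u (k : ℕ) : E d →ᵇ ℂ :=
  BoundedContinuousFunction.ofNormedAddCommGroup
    (fun y => star ((Q84.RS.P k).eval (Q84.Tent.ch 1 (y (i0 hd)))))
    (by
      have := Q84.Tent.ch_cont 1
      have h2 := (Q84.RS.P k).continuous
      fun_prop)
    (Real.sqrt (2 ^ (k + 1))) (by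
      intro y
      rw [norm_star]
      exact Real.le_sqrt_of_sq_le (Q84.RS.P_sq_le k _ (ch_norm _ _)))

theorem u_norm (k : ℕ) : ‖u hd k‖ ≤ Real.sqrt (2 ^ (k + 1)) :=
  BoundedContinuousFunction.norm_ofNormedAddCommGroup_le _ (Real.sqrt_nonneg _) _

theorem La_u (k : ℕ) : La hd k (u hd k) = (a k : ℂ) * 2 ^ k := by
  rw [La_apply]
  have e : ∀ y : E d, M hd k y * (Q84.Tent.T y : ℂ) * u hd k y =
      ∑ p ∈ Finset.range (2 ^ k) ×ˢ Finset.range (2 ^ k),
        ((Q84.Tent.T y : ℂ) * Q84.Tent.ch ((p.1 : ℤ) - p.2) (y (i0 hd))) *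
          (co k p.1 * star ((Q84.RS.P k).coeff p.2)) := by
    intro y
    have h1 : u hd k y = star ((Q84.RS.P k).eval (Q84.Tent.ch 1 (y (i0 hd)))) := rfl
    rw [h1, Q84.RS.P_eval, star_sum, M, Finset.sum_mul, Finset.sum_mul_sum, ← Finset.sum_product']
    refine Finset.sum_congr rfl fun p _ => ?_
    rw [star_mul', ← ch_pow]
    have h2 : Q84.Tent.ch ((p.1 : ℤ) - p.2) (y (i0 hd)) =
        Q84.Tent.ch p.1 (y (i0 hd)) * star (Q84.Tent.ch p.2 (y (i0 hd))) := by
      unfold Q84.Tent.ch
      rw [Complex.star_def, ← Complex.exp_conj, ← Complex.exp_add]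
      congr 1
      rw [map_mul, Complex.conj_ofReal, Complex.conj_I]
      push_cast
      ring
    rw [h2]
    ring
  simp_rw [e]
  rw [integral_finsetSum]
  · have h3 : ∀ p : ℕ × ℕ, ∫ y : E d, ((Q84.Tent.T y : ℂ) *
        Q84.Tent.ch ((p.1 : ℤ) - p.2) (y (i0 hd))) * (co k p.1 * star ((Q84.RS.P k).coeff p.2)) =
        if p.1 = p.2 then co k p.1 * star ((Q84.RS.P k).coeff p.2) else 0 := by
      intro p
      rw [integral_mul_const, Q84.Tent.int_T_ch]
      by_cases h : p.1 = p.2
      · rw [if_pos h, if_pos (by rw [h]; ring), one_mul]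
      · rw [if_neg h, if_neg (by omega), zero_mul]
    simp_rw [h3]
    rw [Finset.sum_product]
    simp only [Finset.sum_ite_eq]
    have h4 : ∀ i ∈ Finset.range (2 ^ k), (if i ∈ Finset.range (2 ^ k) then
        co k i * star ((Q84.RS.P k).coeff i) else 0) = (a k : ℂ) := by
      intro i hi
      rw [if_pos hi, co, mul_assoc, Q84.RS.P_coeff_mul_star (Finset.mem_range.1 hi), mul_one]
    rw [Finset.sum_congr rfl h4, Finset.sum_const, Finset.card_range, nsmul_eq_mul]
    push_cast
    ring
  · intro p _
    apply Integrable.mul_const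
    apply Continuous.integrable_of_hasCompactSupport
    · have := Q84.Tent.ch_cont ((p.1 : ℤ) - p.2)
      have := Q84.Tent.T_cont (d := d)
      fun_prop
    · have h : HasCompactSupport (fun y : E d => (Q84.Tent.T y : ℂ)) :=
        Q84.Tent.T_supp.comp_left (g := Complex.ofReal) Complex.ofReal_zero
      exact h.mul_right

theorem exists_g : ∃ g : E d → ℂ, IsCc g ∧
    ¬ Tendsto (fun k => (muhat hd k).integral g) atTop (𝓝 0) := by
  by_contra hcon
  push Not at hcon
  have hbdd : ∀ v : E d →ᵇ ℂ, ∃ C, ∀ k, ‖La hd k v‖ ≤ C := by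
    intro v
    have hT : IsCc (fun y : E d => (Q84.Tent.T y : ℂ) * v y) := by
      constructor
      · have := Q84.Tent.T_cont (d := d)
        have := v.continuous
        fun_prop
      · have h : HasCompactSupport (fun y : E d => (Q84.Tent.T y : ℂ)) :=
          Q84.Tent.T_supp.comp_left (g := Complex.ofReal) Complex.ofReal_zero
        exact h.mul_right
    have h1 := hcon _ hT
    have h2 : ∀ k, (muhat hd k).integral (fun y : E d => (Q84.Tent.T y : ℂ) * v y) =
        La hd k v := by
      intro k
      rw [La_apply]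
      unfold RadonMeasure.integral muhat
      refine integral_congr_ae (Eventually.of_forall fun y => ?_)
      simp only
      ring
    simp_rw [h2] at h1
    obtain ⟨C, hC⟩ := h1.norm.bddAbove_range
    exact ⟨C, fun k => hC ⟨k, rfl⟩⟩
  obtain ⟨C, hC⟩ := banach_steinhaus hbdd
  have h1 : ∀ k : ℕ, (32 / 25 : ℝ) ^ k ≤ 2 * C ^ 2 := by
    intro k
    have h2 := (La hd k).le_opNorm (u hd k)
    rw [La_u, norm_mul, Complex.norm_real, Real.norm_eq_abs, abs_of_pos (a_pos k), norm_pow] at h2
    have h3 : ‖(2 : ℂ)‖ = 2 := by simp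
    rw [h3] at h2
    have h4 : a k * 2 ^ k ≤ C * Real.sqrt (2 ^ (k + 1)) :=
      h2.trans (mul_le_mul (hC k) (u_norm hd k) (norm_nonneg _) ((norm_nonneg _).trans (hC k)))
    have h5 : (a k * 2 ^ k) ^ 2 ≤ (C * Real.sqrt (2 ^ (k + 1))) ^ 2 :=
      pow_le_pow_left₀ (by have := a_pos k; positivity) h4 2
    rw [mul_pow C, Real.sq_sqrt (by positivity)] at h5
    have h6 : (a k * 2 ^ k) ^ 2 = (32 / 25) ^ k * 2 ^ k := by
      unfold a
      rw [mul_pow, ← pow_mul, ← pow_mul, mul_comm k 2, pow_mul, pow_mul, ← mul_pow, ← mul_pow]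
      norm_num
      rw [← mul_pow]
      norm_num
    rw [h6, pow_succ (2 : ℝ) k] at h5
    have h7 : (0 : ℝ) < 2 ^ k := by positivity
    have h8 : (32 / 25 : ℝ) ^ k * 2 ^ k ≤ (2 * C ^ 2) * 2 ^ k := by linarith
    exact le_of_mul_le_mul_right h8 h7
  obtain ⟨k, hk⟩ := pow_unbounded_of_one_lt (2 * C ^ 2) (by norm_num : (1 : ℝ) < 32 / 25)
  exact absurd (h1 k) (not_le.2 hk)

end construction

/-- **The Fourier transform is not continuous from translation bounded transformable measures to
the vague topology.** For every `d ≥ 1` and every compact `K ⊆ ℝ^d` with non-empty interior there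
are translation bounded measures `μ_n` with Fourier transforms `μhat_n` such that
`‖μ_n‖_K → 0` but `μhat_n` does not converge vaguely to `0`. -/
theorem result (d : ℕ) (hd : 1 ≤ d) (K : Set (E d)) (hK : IsCompact K)
    (_hKi : (interior K).Nonempty) :
    ∃ μ μhat : ℕ → RadonMeasure d,
      (∀ n, (μ n).normK K < ∞) ∧ (∀ n, IsFourierTransform (μ n) (μhat n)) ∧
      Tendsto (fun n => (μ n).normK K) atTop (𝓝 0) ∧
      ∃ g : E d → ℂ, IsCc g ∧ ¬ Tendsto (fun n => (μhat n).integral g) atTop (𝓝 0) := by
  obtain ⟨C, hC⟩ := normK_le hd K hK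
  refine ⟨mu hd, muhat hd, fun n => ?_, isFT hd, ?_, exists_g hd⟩
  · refine (hC n).trans_lt ?_
    exact ENNReal.mul_lt_top ENNReal.ofReal_lt_top (ENNReal.natCast_lt_top C)
  · have h1 : Tendsto (fun n : ℕ => ENNReal.ofReal (a n) * C) atTop (𝓝 0) := by
      have h2 : Tendsto a atTop (𝓝 0) :=
        tendsto_pow_atTop_nhds_zero_of_lt_one (by norm_num) (by norm_num)
      have h3 := ENNReal.tendsto_ofReal h2
      rw [ENNReal.ofReal_zero] at h3
      have h4 := ENNReal.Tendsto.mul_const (b := (C : ℝ≥0∞)) h3
        (Or.inr (ENNReal.natCast_ne_top C))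
      rwa [zero_mul] at h4
    exact tendsto_of_tendsto_of_tendsto_of_le_of_le tendsto_const_nhds h1
      (fun _ => zero_le) hC


end Pool.Agent.Results.MP_148afe_an.NotContinuous
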